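import Pool.Agent.H73.G.R8.H667R3.W7

set_option autoImplicit false
set_option linter.unusedVariables false
set_option linter.unusedSectionVars false
set_option linter.unusedSimpArgs false

/-!
# Growth of entire functions, and the quasi-periods are not proportional to the periods
-/

open Filter MvPolynomial
open scoped Topology PeriodPair

noncomputable section

namespace Pool.Agent.W245.EB

open H667R3

variable {n : ℕ}

lemma wpExcept_eq {L : PeriodPair} {z : ℂ} (hz : z ≠ 0) : ℘[L] z = ℘[L - (0 : ℂ)] z + 1 / z ^ 2 := by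
  have := L.weierstrassPExcept_add (0 : L.lattice) z
  simp at this
  rw [← this]; simp

lemma zreg_zero (L : PeriodPair) : zreg L 0 = 0 := by
  rw [zreg, Pi'_zero, div_one]
  have h1 : Pi' L = fun z => Pi' L (-z) := by
    funext z
    rw [Pi'_neg]
  have h2 : deriv (Pi' L) 0 = - deriv (Pi' L) 0 := by
    conv_lhs => rw [h1]
    rw [deriv_comp_neg (Pi' L), neg_zero]
  linear_combination (1 / 2 : ℂ) * h2

/-- the quasi-periods are not proportional to the periods -/
lemma exists_quasi_period (L : PeriodPair) {s ρ : ℂ} (h : s ≠ 0 ∨ ρ ≠ 0) :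
    ∃ w ∈ L.lattice, s * eta L w + ρ * w ≠ 0 := by
  by_cases hs : s = 0
  · subst hs
    have hρ : ρ ≠ 0 := h.resolve_left (fun h => h rfl)
    refine ⟨L.ω₁, L.ω₁_mem_lattice, ?_⟩
    rw [zero_mul, zero_add]
    apply mul_ne_zero hρ
    intro h0
    have := L.ω₁_div_two_notMem_lattice
    rw [h0, zero_div] at this
    exact this (zero_mem _)
  by_contra hcon
  push Not at hcon
  set c : ℂ := ρ / s with hc
  have hη : ∀ w ∈ L.lattice, eta L w = -(c * w) := by
    intro w hw
    have h1 := hcon w hw
    rw [hc]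
    field_simp
    linear_combination h1
  -- the elliptic function
  set g : ℂ → ℂ := fun z => zeta L z + c * z with hg
  have hgper : ∀ z, z ∉ L.lattice → ∀ l ∈ L.lattice, g (z + l) = g z := by
    intro z hz l hl
    rw [hg]
    simp only
    rw [zeta_add_coe L hz hl, hη l hl]
    ring
  have hgodd : ∀ z, g (-z) = - g z := by
    intro z
    rw [hg]
    simp only
    rw [zeta_neg]
    ring
  have hgd : ∀ z, z ∉ L.lattice → DifferentiableAt ℂ g z := by
    intro z hz
    exact (hasDerivAt_zeta L hz).differentiableAt.add (by fun_prop)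
  have hzr : DifferentiableAt ℂ (zreg L) 0 := differentiableAt_zreg (by rw [Pi'_zero]; exact one_ne_zero)
  have hzan : AnalyticAt ℂ (zreg L) 0 := by
    have h1 : ∀ᶠ z in 𝓝 (0 : ℂ), Pi' L z ≠ 0 := by
      apply ((differentiable_Pi' L).continuous.continuousAt).eventually_ne
      rw [Pi'_zero]
      exact one_ne_zero
    rw [Complex.analyticAt_iff_eventually_differentiableAt]
    filter_upwards [h1] with z hz
    exact differentiableAt_zreg hz
  have hds : DifferentiableAt ℂ (dslope (zreg L) 0) 0 := by
    obtain ⟨p, hp⟩ := hzan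
    exact (hp.has_fpower_series_dslope_fslope).analyticAt.differentiableAt
  have hconst := eq_of_periodic L (fun z => g z ^ 2 - ℘[L] z) ?_ ?_
    (fun z => (zreg L z + c * z) ^ 2 + 2 * (dslope (zreg L) 0 z + c) - ℘[L - (0 : ℂ)] z) ?_ ?_
  · have hhalf : ∀ w ∈ L.lattice, w / 2 ∉ L.lattice → g (w / 2) = 0 := by
      intro w hw hw2
      have h1 := hgper (-(w / 2)) (fun h => hw2 (by simpa using neg_mem h)) w hw
      rw [show -(w / 2) + w = w / 2 by ring, hgodd] at h1
      linear_combination (1 / 2 : ℂ) * h1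
    have h1 := hconst (L.ω₁ / 2) (L.ω₂ / 2) L.ω₁_div_two_notMem_lattice L.ω₂_div_two_notMem_lattice
    rw [hhalf _ L.ω₁_mem_lattice L.ω₁_div_two_notMem_lattice,
      hhalf _ L.ω₂_mem_lattice L.ω₂_div_two_notMem_lattice] at h1
    have h2 : ℘[L] (L.ω₁ / 2) = ℘[L] (L.ω₂ / 2) := by linear_combination (-1 : ℂ) * h1
    have h := (wp_eq_iff L L.ω₁_div_two_notMem_lattice L.ω₂_div_two_notMem_lattice).mp h2
    rcases h with h | h
    · exact half_add_half_notMem L h
    · exact half_sub_half_notMem L h
  · intro z hz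
    exact ((hgd z hz).pow 2).sub (hasDerivAt_weierstrassP L hz).differentiableAt
  · intro z hz l hl
    rw [hgper z hz l hl, L.weierstrassP_add_coe z ⟨l, hl⟩]
  · have h4 := (L.analyticAt_weierstrassPExcept 0).differentiableAt
    refine DifferentiableAt.sub (DifferentiableAt.add (DifferentiableAt.pow (hzr.add (by fun_prop)) 2)
      ((hds.add (by fun_prop)).const_mul 2)) h4
  · have h1 : ∀ᶠ z in 𝓝[≠] (0 : ℂ), z ∉ L.lattice := by
      filter_upwards [self_mem_nhdsWithin, mem_nhdsWithin_of_mem_nhds
        (L.compl_lattice_sdiff_singleton_mem_nhds 0)] with w hw hw'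
      simp_all
    filter_upwards [h1, self_mem_nhdsWithin] with z hz hz0
    have hz0' : z ≠ 0 := hz0
    have e1 : zeta L z = zreg L z + 1 / z := by
      rw [zreg_eq hz]; ring
    have e2 : dslope (zreg L) 0 z = zreg L z / z := by
      rw [dslope_of_ne _ hz0', slope_def_field, zreg_zero, sub_zero, sub_zero]
    rw [hg]
    simp only
    rw [e1, e2, wpExcept_eq hz0']
    field_simp
    ring

end Pool.Agent.W245.EB
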