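import Pool.Agent.H73.G.R8.W245.EB.Ell

set_option autoImplicit false
set_option linter.unusedVariables false
set_option linter.unusedSectionVars false
set_option linter.unusedSimpArgs false

/-!
# The function `ζ` on elliptic logarithms, modulo a field
-/

open Module Filter
open scoped Topology Nat PeriodPair

noncomputable section

namespace Pool.Agent.W245.EB

open H667R3

variable (L : PeriodPair)

open Classical in
/-- the function `ζ`, extended to the lattice by the quasi-periods -/
def zt (u : ℂ) : ℂ := if u ∈ L.lattice then eta L u else zeta L u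

variable {L}

lemma zt_of_mem {u : ℂ} (hu : u ∈ L.lattice) : zt L u = eta L u := by
  rw [zt, if_pos hu]

lemma zt_of_notMem {u : ℂ} (hu : u ∉ L.lattice) : zt L u = zeta L u := by
  rw [zt, if_neg hu]

lemma zt_zero : zt L 0 = 0 := by
  rw [zt_of_mem (zero_mem _), eta_zero]

lemma zt_add_lattice {u w : ℂ} (hw : w ∈ L.lattice) : zt L (u + w) = zt L u + eta L w := by
  by_cases hu : u ∈ L.lattice
  · rw [zt_of_mem hu, zt_of_mem (add_mem hu hw), eta_add L hu hw]
  · rw [zt_of_notMem hu, zt_of_notMem (fun h => hu ((add_mem_lattice_iff L hw).1 h)),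
      zeta_add_coe L hu hw]

lemma zt_neg (u : ℂ) : zt L (-u) = - zt L u := by
  by_cases hu : u ∈ L.lattice
  · rw [zt_of_mem hu, zt_of_mem (neg_mem hu), eta_neg L hu]
  · rw [zt_of_notMem hu, zt_of_notMem (fun h => hu (by simpa using neg_mem h)), zeta_neg]

end Pool.Agent.W245.EB
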