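import Pool.Agent.H73.G.R8.W245.EB.Gz
import Pool.Agent.H73.G.R8.W245.EB.Zt

set_option autoImplicit false
set_option linter.unusedVariables false
set_option linter.unusedSectionVars false
set_option linter.unusedSimpArgs false

/-!
# Complex multiplication and the function `ζ`
-/

open Filter
open scoped Topology PeriodPair

noncomputable section

namespace Pool.Agent.W245.EB

open H667R3

lemma ω₁_ne_zero (L : PeriodPair) : L.ω₁ ≠ 0 := by
  intro h
  have := L.ω₁_div_two_notMem_lattice
  rw [h, zero_div] at this
  exact this (zero_mem _)

variable {L : PeriodPair} {α : ℂ}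

end Pool.Agent.W245.EB
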