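import Pool.Agent.H73.G.R8.H667R3.W7

set_option autoImplicit false
set_option linter.unusedVariables false

/-!
# The group of elliptic logarithms of points over a subfield
-/

open Module Filter
open scoped Topology Nat PeriodPair

noncomputable section

namespace Pool.Agent.W245.EB

open H667R3

variable (L : PeriodPair)

lemma wp_add_lattice {u l : ℂ} (hl : l ∈ L.lattice) : ℘[L] (u + l) = ℘[L] u :=
  L.weierstrassP_add_coe u ⟨l, hl⟩

lemma wp'_add_lattice {u l : ℂ} (hl : l ∈ L.lattice) : ℘'[L] (u + l) = ℘'[L] u :=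
  L.derivWeierstrassP_add_coe u ⟨l, hl⟩

lemma add_mem_lattice_iff {u l : ℂ} (hl : l ∈ L.lattice) : u + l ∈ L.lattice ↔ u ∈ L.lattice :=
  ⟨fun h => by simpa using sub_mem h hl, fun h => add_mem h hl⟩

variable {L}

end Pool.Agent.W245.EB
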